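import Pool.Agent.Y882.GP.Mono

/-!
# Odd integers as twice a small prime plus an almost prime: few exceptions

For every natural `r` and `0 < θ ≤ 1` with `(1 + θ) (r + 1) > 4`: for all but
`O(X ^ (max (2/3, 1 - θ, 4/(r+1) - θ) + ε))` odd `n ≤ X` there are at least `δ n^θ / (log n)²` primes
`q ≤ n^θ` such that `n = m + 2 q`, where `m ≥ 2` has at most `r` prime factors, all of them
`≥ n^(1/(r+1))`.

So `n = 2 q + P₃` with a prime `q ≤ n^θ` for every fixed `θ > 0`, for all but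
`O(X ^ (max (2/3, 1 - θ) + ε))` odd `n ≤ X`, and `n = 2 q + P₂` with `q ≤ n^θ` for every `θ > 1/3`, for all but
`O(X ^ (max (2/3, 4/3 - θ) + ε))`.
-/

set_option autoImplicit false

open Finset

namespace Pool.Agent.Results.MP_662920_nt.SmallPrimeFewExceptions

open Classical in
/-- The primes `q ≤ n ^ θ` such that `n = m + 2 q` with `m ≥ 2` having at most `r` prime
factors, counted with multiplicity, all of them at least `n ^ (1 / (r + 1))`. -/
noncomputable def reps (r : ℕ) (θ : ℝ) (n : ℕ) : Finset ℕ :=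
  (range (n + 1)).filter (fun q : ℕ => q.Prime ∧ (q : ℝ) ≤ (n : ℝ) ^ θ ∧
    ∃ m : ℕ, n = m + 2 * q ∧ 2 ≤ m ∧ m.primeFactorsList.length ≤ r ∧
      ∀ l : ℕ, l.Prime → l ∣ m → (n : ℝ) ^ (1 / ((r : ℝ) + 1)) ≤ l)

/-- `2 a = n` has at most one solution modulo an odd prime, none modulo `2` -/
theorem rs_one (n : ℕ) (hn : Odd n) (q : ℕ) (hq : q.Prime) :
    Pool.Agent.Y882.GP.rs (Pool.Agent.Y882.GP.mo 2 1) (-(n : ℤ)) q ≤ 1 ∧
    Pool.Agent.Y882.GP.rs (Pool.Agent.Y882.GP.mo 2 1) (-(n : ℤ)) q + 2 ≤ q := by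
  classical
  rcases hq.eq_two_or_odd' with rfl | hodd
  · have h0 : Pool.Agent.Y882.GP.rs (Pool.Agent.Y882.GP.mo 2 1) (-(n : ℤ)) 2 = 0 := by
      apply Pool.Agent.Y882.GP.rs_two'
      rw [Pool.Agent.Y882.GP.mo_eval]
      rintro ⟨t, ht⟩
      obtain ⟨s, hs⟩ := hn
      subst hs
      push_cast at ht
      omega
    rw [h0]
    norm_num
  · have h1 : Pool.Agent.Y882.GP.rs (Pool.Agent.Y882.GP.mo 2 1) (-(n : ℤ)) q ≤ 1 := by
      unfold Pool.Agent.Y882.GP.rs Pool.Agent.Y882.GP.Rt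
      rw [card_le_one]
      intro x hx y hy
      rw [mem_filter, mem_range, Pool.Agent.Y882.GP.mo_eval] at hx hy
      have h2 : (q : ℤ) ∣ 2 * ((x : ℤ) - y) := by
        have := dvd_sub hx.2.1 hy.2.1
        have e : (2 * (x : ℤ) ^ 1 + -(n : ℤ)) - (2 * (y : ℤ) ^ 1 + -(n : ℤ)) = 2 * ((x : ℤ) - y) := by
          ring
        rwa [e] at this
      have h3 : IsCoprime (q : ℤ) 2 := by
        have : Nat.Coprime q 2 := hodd.coprime_two_right
        exact_mod_cast Nat.isCoprime_iff_coprime.2 this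
      have h4 : (q : ℤ) ∣ (x : ℤ) - y := h3.dvd_of_dvd_mul_left h2
      have hx1 : (x : ℤ) < q := by exact_mod_cast hx.1
      have hy1 : (y : ℤ) < q := by exact_mod_cast hy.1
      have h5 : (x : ℤ) - y = 0 := by
        apply Int.eq_zero_of_abs_lt_dvd h4
        rw [abs_lt]
        constructor <;> linarith [Int.natCast_nonneg x, Int.natCast_nonneg y]
      have h6 : (x : ℤ) = y := by linarith
      exact_mod_cast h6
    refine ⟨h1, ?_⟩
    have h2 := hq.two_le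
    obtain ⟨t, ht⟩ := hodd
    omega

open Classical in
/-- All but few odd `n ≤ X` are of the form `n = m + 2 q`, `m` an almost prime, with many primes `q ≤ n ^ θ`. -/
theorem result (r : ℕ) (θ ε : ℝ) (hθ0 : 0 < θ) (hθ1 : θ ≤ 1) (hr : 4 < (1 + θ) * (r + 1))
    (hε : 0 < ε) :
    ∃ δ C : ℝ, 0 < δ ∧ 0 < C ∧ ∀ X : ℕ, 1 ≤ X →
      (((Icc 1 X).filter (fun n : ℕ => Odd n ∧
        ((reps r θ n).card : ℝ) < δ * (n : ℝ) ^ θ / Real.log n ^ 2)).card : ℝ) ≤
      C * (X : ℝ) ^ (max (max (2 / 3) (1 - θ)) (4 / ((r : ℝ) + 1) - θ) + ε) := by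
  obtain ⟨δ, C, hδ, hC, H⟩ := Pool.Agent.Y882.GP.gen (Pool.Agent.Y882.GP.mo 2 1)
    (by rw [Pool.Agent.Y882.GP.mo_deg _ (by norm_num)])
    (by rw [Pool.Agent.Y882.GP.mo_lc]; norm_num) 0 (fun n => Odd n)
    (fun n hn q hq => (rs_one n hn q hq).1) (fun n hn q hq => (rs_one n hn q hq).2)
    r θ ε hθ0 (by
      rw [Pool.Agent.Y882.GP.mo_deg _ (by norm_num)]
      push_cast
      linarith) hr hε
  refine ⟨δ, C, hδ, hC, fun X hX => le_trans ?_ (H X hX)⟩
  have hsub : ∀ n : ℕ, Pool.Agent.Y882.GP.good (Pool.Agent.Y882.GP.mo 2 1) r n ((n : ℝ) ^ θ) ⊆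
      reps r θ n := by
    intro n x hx
    unfold Pool.Agent.Y882.GP.good at hx
    unfold reps
    rw [mem_filter, mem_Icc, Pool.Agent.Y882.GP.mo_eval, pow_one] at hx
    rw [mem_filter, mem_range]
    obtain ⟨⟨h0, h1⟩, h2, h3, h4, h5⟩ := hx
    have hxn : (x : ℝ) ≤ (n : ℝ) ^ θ := (Nat.le_floor_iff (by positivity)).1 h1
    have hx0 : (0 : ℤ) ≤ x := Int.natCast_nonneg x
    refine ⟨?_, h2, hxn, ((n : ℤ) - 2 * (x : ℤ)).natAbs, ?_, ?_, h4, ?_⟩
    · have : (x : ℤ) < n + 1 := by linarith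
      exact_mod_cast this
    · zify
      rw [abs_of_nonneg (by linarith)]
      ring
    · zify
      rw [abs_of_nonneg (by linarith)]
      exact h3
    · intro q hq hqm
      exact h5 q hq (Int.natCast_dvd.2 hqm)
  have hfin : (Icc 1 X).filter (fun n : ℕ => Odd n ∧
        ((reps r θ n).card : ℝ) < δ * (n : ℝ) ^ θ / Real.log n ^ 2) ⊆
      (Icc 1 X).filter (fun n : ℕ => Odd n ∧
        ((Pool.Agent.Y882.GP.good (Pool.Agent.Y882.GP.mo 2 1) r n ((n : ℝ) ^ θ)).card : ℝ) <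
          δ * (n : ℝ) ^ θ / Real.log n ^ (0 + 2)) := by
    intro n hn
    rw [mem_filter] at hn ⊢
    refine ⟨hn.1, hn.2.1, lt_of_le_of_lt ?_ hn.2.2⟩
    exact_mod_cast card_le_card (hsub n)
  exact_mod_cast card_le_card hfin

end Pool.Agent.Results.MP_662920_nt.SmallPrimeFewExceptions
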