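import Pool.Agent.Y820.LF.Fin
import Pool.Agent.TH894.SM0

/-!
# Representations `n = p + 2 q` with the prime `q` in prescribed intervals, after adding a bounded number of powers of `b`

Every finite set `T` of odd integers between `X / m` and `X` (for instance one integer) has a translate `T + d`, where
`d ≤ θ X` is a sum of at most `K` different powers of `b`, such that all but at most `ρ |T|` elements `n` of the translate
have the expected number of representations `n = p + 2 q` with the prime `q` in `(u, v]`, for ALL `0 ≤ u ≤ v ≤ n / 2`.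

Definition used from `Pool.Agent.H560R3.GB` (starting files): `sing n`: the singular series
`2 C₂ ∏_{p ∣ n, p > 2} (p - 1) / (p - 2)`, where `C₂` is the twin prime constant `∏_{p > 2} (1 - 1 / (p - 1) ^ 2)`.

Libraries: W93, TH892, TH894, H373R2, H560R3 (starting files), Y820 (helper820; tasks by helper692, helper71,
helper514, helper515, helper484).
-/

set_option autoImplicit false

namespace Pool.Agent.Results.MP_662920_nt.WindowsAfterPowers

open Finset Filter Pool.Agent.H560R3.GB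

/-- the forms `q`, `a - 2 q` -/
lemma nu_eq (a p : ℕ) (hp : p.Prime) (ha : ¬ 2 ∣ a) :
    Pool.Agent.Y820.LF.nuF (Pool.Agent.Y820.LF.C1 (fun _ : Fin 1 => (-2 : ℤ))) (Pool.Agent.Y820.LF.H1 (fun _ : Fin 1 => (a : ℤ))) p =
      if p = 2 ∨ p ∣ a then 1 else 2 := by
  rw [Pool.Agent.Y820.LF.nuF_C1]
  have hp0 := hp.pos
  rcases hp.eq_two_or_odd' with h2 | hodd
  · rw [if_pos (Or.inl h2)]
    subst h2
    have h1 : (range 2).filter (fun r : ℕ => ((2 : ℕ) : ℤ) ∣ (r : ℤ) ∨ ∃ _ : Fin 1, ((2 : ℕ) : ℤ) ∣ -2 * (r : ℤ) + (a : ℤ)) = {0} := by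
      ext r
      rw [mem_filter, mem_range, mem_singleton]
      constructor
      · rintro ⟨hr, h | ⟨_, h⟩⟩
        · rw [Int.natCast_dvd_natCast] at h
          exact Nat.eq_zero_of_dvd_of_lt h hr
        · exfalso
          push_cast at h
          omega
      · intro h
        subst h
        exact ⟨by norm_num, Or.inl (by simp)⟩
    rw [h1]
    simp
  · obtain ⟨k, hk⟩ := hodd
    -- `k + 1` is the inverse of `2`
    have hinv : ∀ t : ℤ, (p : ℤ) ∣ 2 * (((k : ℤ) + 1) * t) - t := fun t => ⟨t, by rw [hk]; push_cast; ring⟩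
    have hp2 : IsCoprime (p : ℤ) 2 := by
      rw [Int.isCoprime_iff_gcd_eq_one]
      have : Nat.Coprime p 2 := (Nat.coprime_primes hp Nat.prime_two).2 (by omega)
      exact_mod_cast this
    have h1 : (range p).filter (fun r : ℕ => (p : ℤ) ∣ (r : ℤ) ∨ ∃ _ : Fin 1, (p : ℤ) ∣ -2 * (r : ℤ) + (a : ℤ)) = {0, ((k + 1) * a) % p} := by
      ext r
      rw [mem_filter, mem_range, mem_insert, mem_singleton]
      constructor
      · rintro ⟨hr, h | ⟨_, h⟩⟩
        · left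
          rw [Int.natCast_dvd_natCast] at h
          exact Nat.eq_zero_of_dvd_of_lt h hr
        · right
          have h3 : (k + 1) * a ≡ r [MOD p] := by
            apply (Nat.modEq_iff_dvd).2
            have e : (p : ℤ) ∣ 2 * ((r : ℤ) - ((k + 1) * a : ℕ)) := by
              have h4 := hinv a
              push_cast
              have e1 : 2 * ((r : ℤ) - ((k : ℤ) + 1) * a) = -(-2 * (r : ℤ) + a) - (2 * (((k : ℤ) + 1) * a) - a) := by ring
              rw [e1]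
              exact dvd_sub ((dvd_neg).2 h) h4
            exact hp2.dvd_of_dvd_mul_left e
          unfold Nat.ModEq at h3
          rw [h3, Nat.mod_eq_of_lt hr]
      · rintro (h | h)
        · subst h
          exact ⟨hp0, Or.inl (by simp)⟩
        · refine ⟨by rw [h]; exact Nat.mod_lt _ hp0, Or.inr ⟨0, ?_⟩⟩
          have h2 : r ≡ (k + 1) * a [MOD p] := by
            rw [h]
            exact Nat.mod_modEq _ _
          have h3 := (Nat.modEq_iff_dvd).1 h2
          push_cast at h3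
          have h4 := hinv a
          have e : -2 * (r : ℤ) + (a : ℤ) = 2 * (((k : ℤ) + 1) * a - r) - (2 * (((k : ℤ) + 1) * a) - a) := by ring
          rw [e]
          exact dvd_sub (Dvd.dvd.mul_left h3 2) h4
    rw [h1]
    have hp2' : p ≠ 2 := by omega
    by_cases h2 : p ∣ a
    · rw [if_pos (Or.inr h2), Nat.mod_eq_zero_of_dvd (Dvd.dvd.mul_left h2 _)]
      simp
    · rw [if_neg (by rintro (h | h); exacts [hp2' h, h2 h])]
      apply card_pair
      intro h3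
      have h4 := Nat.dvd_of_mod_eq_zero h3.symm
      rcases (hp.dvd_mul).1 h4 with h5 | h5
      · have := Nat.le_of_dvd (by omega) h5
        have := hp.two_le
        omega
      · exact h2 h5

lemma adm_iff (a : ℕ) :
    Pool.Agent.Y820.LF.AdmF (Pool.Agent.Y820.LF.C1 (fun _ : Fin 1 => (-2 : ℤ))) (Pool.Agent.Y820.LF.H1 (fun _ : Fin 1 => (a : ℤ))) ↔ ¬ 2 ∣ a := by
  unfold Pool.Agent.Y820.LF.AdmF
  constructor
  · intro h h2
    have h1 := h 2 Nat.prime_two
    rw [Pool.Agent.Y820.LF.nuF_C1] at h1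
    have h3 : (range 2).filter (fun r : ℕ => ((2 : ℕ) : ℤ) ∣ (r : ℤ) ∨ ∃ _ : Fin 1, ((2 : ℕ) : ℤ) ∣ -2 * (r : ℤ) + (a : ℤ)) = range 2 := by
      apply filter_true_of_mem
      intro r _
      right
      refine ⟨0, ?_⟩
      push_cast
      omega
    rw [h3, card_range] at h1
    omega
  · intro h p hp
    rw [nu_eq a p hp h]
    split_ifs with h1
    · exact hp.one_lt
    · have h2 := hp.two_le
      have h3 : p ≠ 2 := fun h4 => h1 (Or.inl h4)
      omega

/-- the limit of the singular series -/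
lemma sing_lim (a : ℕ) (ha : a ≠ 0) (h2 : ¬ 2 ∣ a) :
    Tendsto (Pool.Agent.Y820.LF.singF (Pool.Agent.Y820.LF.C1 (fun _ : Fin 1 => (-2 : ℤ))) (Pool.Agent.Y820.LF.H1 (fun _ : Fin 1 => (a : ℤ)))) atTop (nhds (sing a)) := by
  have hfac : ∀ p : ℕ, 3 ≤ p → 0 < 1 - 1 / ((p : ℝ) - 1) ^ 2 := fun p hp => Pool.Agent.TH894.SM.fac_pos p hp
  have hanti : Antitone (fun z : ℕ => ∏ p ∈ (Icc 3 z).filter Nat.Prime, (1 - 1 / ((p : ℝ) - 1) ^ 2)) := by
    intro z z' hzz
    have hsub : (Icc 3 z).filter Nat.Prime ⊆ (Icc 3 z').filter Nat.Prime := filter_subset_filter _ (Icc_subset_Icc le_rfl hzz)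
    simp only
    rw [← prod_sdiff hsub]
    have h3 : ∏ p ∈ (Icc 3 z').filter Nat.Prime \ (Icc 3 z).filter Nat.Prime, (1 - 1 / ((p : ℝ) - 1) ^ 2) ≤ 1 := by
      apply prod_le_one
      · intro p hp
        exact (hfac p (mem_Icc.1 (mem_filter.1 (mem_sdiff.1 hp).1).1).1).le
      · intro p _
        have : 0 ≤ 1 / ((p : ℝ) - 1) ^ 2 := by positivity
        linarith
    have h4 : 0 ≤ ∏ p ∈ (Icc 3 z).filter Nat.Prime, (1 - 1 / ((p : ℝ) - 1) ^ 2) :=
      prod_nonneg fun p hp => (hfac p (mem_Icc.1 (mem_filter.1 hp).1).1).le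
    calc _ ≤ 1 * ∏ p ∈ (Icc 3 z).filter Nat.Prime, (1 - 1 / ((p : ℝ) - 1) ^ 2) := mul_le_mul_of_nonneg_right h3 h4
      _ = _ := one_mul _
  have hbdd : BddBelow (Set.range (fun z : ℕ => ∏ p ∈ (Icc 3 z).filter Nat.Prime, (1 - 1 / ((p : ℝ) - 1) ^ 2))) := by
    refine ⟨0, ?_⟩
    rintro _ ⟨z, rfl⟩
    exact prod_nonneg fun p hp => (hfac p (mem_Icc.1 (mem_filter.1 hp).1).1).le
  have hlim := (tendsto_atTop_ciInf hanti hbdd).const_mul 2
  have hlim2 := hlim.mul_const (∏ p ∈ a.primeFactors.filter (fun p => 2 < p), ((p : ℝ) - 1) / ((p : ℝ) - 2))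
  refine Tendsto.congr' ?_ hlim2
  filter_upwards [eventually_ge_atTop (a + 2)] with z hz
  unfold Pool.Agent.Y820.LF.singF
  have hset : (Icc 1 z).filter Nat.Prime = insert 2 ((Icc 3 z).filter Nat.Prime) := by
    ext p
    rw [mem_filter, mem_insert, mem_filter, mem_Icc, mem_Icc]
    constructor
    · rintro ⟨h3, h4⟩
      have := h4.two_le
      rcases this.eq_or_lt with h5 | h5
      · exact Or.inl h5.symm
      · exact Or.inr ⟨⟨h5, h3.2⟩, h4⟩
    · rintro (h3 | h3)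
      · rw [h3]
        exact ⟨⟨by omega, by omega⟩, Nat.prime_two⟩
      · exact ⟨⟨by omega, h3.1.2⟩, h3.2⟩
  rw [hset, prod_insert (by simp), nu_eq a 2 Nat.prime_two h2, if_pos (Or.inl rfl)]
  have h3 : ∏ p ∈ (Icc 3 z).filter Nat.Prime, (1 - ((Pool.Agent.Y820.LF.nuF (Pool.Agent.Y820.LF.C1 (fun _ : Fin 1 => (-2 : ℤ))) (Pool.Agent.Y820.LF.H1 (fun _ : Fin 1 => (a : ℤ))) p : ℕ) : ℝ) / p) / (1 - 1 / (p : ℝ)) ^ (1 + 1) =
      (∏ p ∈ (Icc 3 z).filter Nat.Prime, (1 - 1 / ((p : ℝ) - 1) ^ 2)) * ∏ p ∈ (Icc 3 z).filter Nat.Prime, (if p ∣ a then ((p : ℝ) - 1) / ((p : ℝ) - 2) else 1) := by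
    rw [← prod_mul_distrib]
    apply prod_congr rfl
    intro p hp
    rw [mem_filter, mem_Icc] at hp
    have hp3 : (3 : ℝ) ≤ p := by exact_mod_cast hp.1.1
    have e1 : (p : ℝ) - 1 ≠ 0 := by linarith
    have e2 : (p : ℝ) - 2 ≠ 0 := by linarith
    have e3 : (p : ℝ) ≠ 0 := by linarith
    have e4 : 1 - 1 / (p : ℝ) ≠ 0 := by
      have : 1 - 1 / (p : ℝ) = (p - 1) / p := by field_simp
      rw [this]
      exact div_ne_zero e1 e3
    have hpne : p ≠ 2 := by omega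
    rw [nu_eq a p hp.2 h2]
    simp only [hpne, false_or]
    split_ifs with h4
    · rw [Nat.cast_one]
      have e5 : (1 : ℝ) - 1 / ((p : ℝ) - 1) ^ 2 = p * (p - 2) / (p - 1) ^ 2 := by
        field_simp
        ring
      rw [e5, show (1 : ℝ) - 1 / (p : ℝ) = (p - 1) / p by field_simp]
      have e6 : ((p : ℝ) - 1) / p / (((p : ℝ) - 1) / p) ^ (1 + 1) = p / (p - 1) := by
        rw [div_pow, div_div_div_eq, div_eq_div_iff (mul_ne_zero e3 (pow_ne_zero _ e1)) e1]
        ring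
      have e7 : (p : ℝ) * (p - 2) / (p - 1) ^ 2 * ((p - 1) / (p - 2)) = p / (p - 1) := by
        rw [div_mul_div_comm, div_eq_div_iff (mul_ne_zero (pow_ne_zero _ e1) e2) e1]
        ring
      rw [e6, e7]
    · have e5 : (1 : ℝ) - 1 / ((p : ℝ) - 1) ^ 2 = p * (p - 2) / (p - 1) ^ 2 := by
        field_simp
        ring
      rw [e5, show (1 : ℝ) - 1 / (p : ℝ) = (p - 1) / p by field_simp]
      push_cast
      field_simp
  rw [h3]
  have h4 : ∏ p ∈ (Icc 3 z).filter Nat.Prime, (if p ∣ a then ((p : ℝ) - 1) / ((p : ℝ) - 2) else 1) =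
      ∏ p ∈ a.primeFactors.filter (fun p => 2 < p), ((p : ℝ) - 1) / ((p : ℝ) - 2) := by
    rw [← prod_filter]
    apply prod_congr _ (fun _ _ => rfl)
    ext p
    rw [mem_filter, mem_filter, mem_Icc, mem_filter, Nat.mem_primeFactors]
    constructor
    · rintro ⟨⟨h5, h6⟩, h7⟩
      exact ⟨⟨h6, h7, ha⟩, by omega⟩
    · rintro ⟨⟨h5, h6, _⟩, h7⟩
      have := Nat.le_of_dvd (Nat.pos_of_ne_zero ha) h6
      exact ⟨⟨⟨by omega, by omega⟩, h5⟩, h6⟩
  rw [h4]
  push_cast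
  norm_num
  ring

/-- The number of the primes `q ≤ N` for which `a - 2 q` is a prime. -/
def W (a N : ℕ) : ℕ := ((Icc 1 N).filter (fun q => q.Prime ∧ (a - 2 * q).Prime)).card

lemma W_eq (a N : ℕ) : Pool.Agent.Y820.LF.cntF (Pool.Agent.Y820.LF.C1 (fun _ : Fin 1 => (-2 : ℤ)))
    (Pool.Agent.Y820.LF.H1 (fun _ : Fin 1 => (a : ℤ))) N = W a N := by
  rw [Pool.Agent.Y820.LF.cntF_C1]
  unfold W
  congr 1
  apply filter_congr
  intro n _
  have e : (-2 * (n : ℤ) + (a : ℤ)).toNat = a - 2 * n := by omega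
  simp only [e, forall_const]

lemma W_mono (a : ℕ) : Monotone (W a) := by
  intro N N' h
  unfold W
  exact card_le_card (filter_subset_filter _ (Icc_subset_Icc le_rfl h))

lemma all_N (e : ℝ) (he : 0 < e) (he1 : e ≤ 1) : ∃ M : ℕ, 1 ≤ M ∧ ∃ n0 : ℕ, ∀ a : ℕ, n0 ≤ a → ∀ (W : ℕ → ℕ) (G : ℝ), 0 < G →
    Monotone W →
    (∀ N : ℕ, a ≤ M * N → 2 * N + 1 ≤ a → |(W N : ℝ) - G * (N / Real.log N ^ 2)| ≤ e * (G * (N / Real.log N ^ 2))) →
    ∀ N : ℕ, 2 * N + 1 ≤ a → |(W N : ℝ) - G * (N / Real.log a ^ 2)| ≤ 5 * e * (G * (a / Real.log a ^ 2)) := by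
  obtain ⟨M, hM⟩ : ∃ M : ℕ, 1 / e + 3 ≤ M := ⟨_, Nat.le_ceil _⟩
  have hMe : 1 ≤ e * M := by
    have h1 : 1 / e ≤ (M : ℝ) := by linarith
    rw [div_le_iff₀ he] at h1
    linarith
  have hM3 : (3 : ℝ) ≤ M := by
    have : 0 < 1 / e := by positivity
    linarith
  have hM2 : (2 : ℝ) ≤ M := by linarith
  have hM2' : 3 ≤ M := by exact_mod_cast hM3
  obtain ⟨n1, hn1⟩ : ∃ n1 : ℕ, (M : ℝ) * Real.exp (3 * Real.log M / e) ≤ n1 := ⟨_, Nat.le_ceil _⟩
  refine ⟨M, by omega, n1 + 2 * M + 12, fun a ha W G hG hW hmain N hNa => ?_⟩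
  have haM : (M : ℝ) ≤ a := by exact_mod_cast (by omega : M ≤ a)
  have ha8 : (8 : ℝ) ≤ a := by exact_mod_cast (by omega : 8 ≤ a)
  have hea : 1 ≤ e * a := hMe.trans (mul_le_mul_of_nonneg_left haM he.le)
  have ha0 : (0 : ℝ) < a := by linarith
  have hl1 : 1 < Real.log a := by
    rw [Real.lt_log_iff_exp_lt ha0]
    have := Real.exp_one_lt_d9
    linarith
  obtain ⟨L, hL⟩ : ∃ L, L = Real.log a := ⟨_, rfl⟩
  rw [← hL] at hl1 ⊢
  have hL0 : 0 < L := by linarith
  obtain ⟨Y, hY⟩ : ∃ Y, Y = G * (a / L ^ 2) := ⟨_, rfl⟩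
  have hY0 : 0 < Y := by rw [hY]; positivity
  rw [← hY]
  have hmul : ∀ t : ℝ, t ≤ a → G * (t / L ^ 2) ≤ Y := fun t ht => by
    rw [hY]
    gcongr
  -- the middle range
  have hmid : ∀ N : ℕ, a ≤ M * N → 2 * N + 1 ≤ a → |(W N : ℝ) - G * (N / L ^ 2)| ≤ 3 * e * Y := by
    intro N h1 h2
    have h3 := hmain N h1 h2
    have hN0 : 0 < N := by
      rcases Nat.eq_zero_or_pos N with h | h
      · rw [h] at h1
        omega
      · exact h
    have hNr : (0 : ℝ) < N := by exact_mod_cast hN0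
    have hNa' : (N : ℝ) ≤ a := by exact_mod_cast (by omega : N ≤ a)
    have h1r : (a : ℝ) ≤ M * N := by exact_mod_cast h1
    have hM0 : (0 : ℝ) < M := by linarith
    have hlN : 3 * Real.log M / e ≤ Real.log N := by
      rw [Real.le_log_iff_exp_le hNr]
      have h4 : (M : ℝ) * Real.exp (3 * Real.log M / e) ≤ M * N := by
        refine hn1.trans (le_trans ?_ h1r)
        exact_mod_cast (by omega : n1 ≤ a)
      exact le_of_mul_le_mul_left h4 hM0
    have hlM : 0 < Real.log M := Real.log_pos (by linarith)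
    have hlN0 : 0 < Real.log N := lt_of_lt_of_le (by positivity) hlN
    have hla : L ≤ Real.log M + Real.log N := by
      rw [hL, ← Real.log_mul hM0.ne' hNr.ne']
      exact Real.log_le_log ha0 h1r
    have hlaN : Real.log N ≤ L := by
      rw [hL]
      exact Real.log_le_log hNr hNa'
    have hlM' : Real.log M ≤ e / 3 * Real.log N := by
      rw [div_le_iff₀ he] at hlN
      linarith
    obtain ⟨l, hl⟩ : ∃ l, l = Real.log N := ⟨_, rfl⟩
    rw [← hl] at h3 hlN0 hla hlaN hlM'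
    have hsq : L ^ 2 ≤ (1 + e) * l ^ 2 := by
      have h5 : L ≤ (1 + e / 3) * l := by linarith
      calc L ^ 2 ≤ ((1 + e / 3) * l) ^ 2 := pow_le_pow_left₀ hL0.le h5 2
        _ = (1 + e / 3) ^ 2 * l ^ 2 := by ring
        _ ≤ (1 + e) * l ^ 2 := by
            apply mul_le_mul_of_nonneg_right _ (by positivity)
            nlinarith
    have hx1 : G * (N / L ^ 2) ≤ G * (N / l ^ 2) := by
      apply mul_le_mul_of_nonneg_left _ hG.le
      apply div_le_div_of_nonneg_left hNr.le (by positivity)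
      exact pow_le_pow_left₀ hlN0.le hlaN 2
    have hx2 : G * (N / l ^ 2) ≤ (1 + e) * (G * (N / L ^ 2)) := by
      have h5 : (N : ℝ) / l ^ 2 ≤ (1 + e) * (N / L ^ 2) := by
        rw [div_le_iff₀ (by positivity)]
        have h6 : (1 + e) * (N / L ^ 2) * l ^ 2 = N * ((1 + e) * l ^ 2 / L ^ 2) := by ring
        rw [h6]
        have h7 : 1 ≤ (1 + e) * l ^ 2 / L ^ 2 := by
          rw [le_div_iff₀ (by positivity)]
          linarith
        nlinarith
      calc G * (N / l ^ 2) ≤ G * ((1 + e) * (N / L ^ 2)) := mul_le_mul_of_nonneg_left h5 hG.le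
        _ = _ := by ring
    have hx3 := hmul N hNa'
    have hx0 : 0 < G * (N / L ^ 2) := by positivity
    rw [abs_le] at h3 ⊢
    obtain ⟨x, hx⟩ : ∃ x, x = G * (N / l ^ 2) := ⟨_, rfl⟩
    obtain ⟨y, hy⟩ : ∃ y, y = G * (N / L ^ 2) := ⟨_, rfl⟩
    rw [← hx] at h3 hx1 hx2
    rw [← hy] at hx1 hx2 hx3 hx0 ⊢
    have h8 : e * x ≤ e * ((1 + e) * y) := mul_le_mul_of_nonneg_left hx2 he.le
    have h9 : e * ((1 + e) * y) ≤ 2 * (e * Y) := by
      have : (1 + e) * y ≤ 2 * Y := by nlinarith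
      have := mul_le_mul_of_nonneg_left this he.le
      linarith
    have h10 : e * y ≤ e * Y := mul_le_mul_of_nonneg_left hx3 he.le
    constructor <;> nlinarith [h3.1, h3.2]
  have hdiv : ∀ t : ℝ, G * (t / L ^ 2) = t / a * Y := fun t => by
    rw [hY]
    field_simp
  rcases Nat.lt_or_ge (M * N) a with h1 | h1
  · -- small `N`
    obtain ⟨N1, hN1⟩ : ∃ N1, N1 = a / M + 1 := ⟨_, rfl⟩
    have h2 : a ≤ M * N1 := by
      have h := Nat.lt_div_mul_add (a := a) (b := M) (by omega)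
      rw [hN1, Nat.mul_add, mul_one, mul_comm M (a / M)]
      omega
    have h3 : 2 * N1 + 1 ≤ a := by
      have : a / M ≤ a / 3 := Nat.div_le_div_left hM2' (by norm_num)
      omega
    have h4 : N ≤ N1 := by
      by_contra hcon
      push Not at hcon
      have := Nat.mul_le_mul_left M hcon.le
      omega
    have h5 := abs_le.1 (hmid N1 h2 h3)
    have h6 : (W N : ℝ) ≤ W N1 := by exact_mod_cast hW h4
    have h7 : (N1 : ℝ) / a ≤ 2 * e := by
      rw [div_le_iff₀ ha0, hN1]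
      push_cast
      have h8 : ((a / M : ℕ) : ℝ) ≤ a / M := Nat.cast_div_le
      have h9 : (a : ℝ) / M ≤ e * a := by
        rw [div_le_iff₀ (by linarith)]
        nlinarith
      linarith
    have h8 : (N : ℝ) / a ≤ 2 * e := le_trans (by
      apply div_le_div_of_nonneg_right _ ha0.le
      exact_mod_cast h4) h7
    rw [hdiv] at h5
    rw [hdiv, abs_le]
    have h9 : (N1 : ℝ) / a * Y ≤ 2 * e * Y := mul_le_mul_of_nonneg_right h7 hY0.le
    have h10 : (N : ℝ) / a * Y ≤ 2 * e * Y := mul_le_mul_of_nonneg_right h8 hY0.le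
    have h11 : 0 ≤ (N : ℝ) / a * Y := by positivity
    have h12 : (0 : ℝ) ≤ W N := Nat.cast_nonneg _
    have h13 : 0 < e * Y := by positivity
    constructor <;> nlinarith [h5.1, h5.2]
  · refine (hmid N h1 hNa).trans ?_
    have : 0 < e * Y := by positivity
    nlinarith

open Classical in
/-- The number of the primes `q` with `u < q ≤ v` and `q ≤ n` for which `n - 2 q` is a prime. -/
noncomputable def inWindow (n : ℕ) (u v : ℝ) : ℕ :=
  ((Icc 1 n).filter (fun q : ℕ => u < q ∧ (q : ℝ) ≤ v ∧ q.Prime ∧ (n - 2 * q).Prime)).card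

lemma inWindow_eq (n : ℕ) (u v : ℝ) (hu : 0 ≤ u) (huv : u ≤ v) (hv : v ≤ n) : inWindow n u v + W n ⌊u⌋₊ = W n ⌊v⌋₊ := by
  classical
  unfold inWindow W
  rw [← card_union_of_disjoint]
  · congr 1
    ext p
    rw [mem_union, mem_filter, mem_filter, mem_filter, mem_Icc, mem_Icc, mem_Icc]
    constructor
    · rintro (⟨⟨h1, h2⟩, h3, h4, h5, h6⟩ | ⟨⟨h1, h2⟩, h5, h6⟩)
      · exact ⟨⟨h1, Nat.le_floor h4⟩, h5, h6⟩
      · exact ⟨⟨h1, h2.trans (Nat.floor_le_floor huv)⟩, h5, h6⟩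
    · rintro ⟨⟨h1, h2⟩, h5, h6⟩
      have h3 : (p : ℝ) ≤ v := (Nat.le_floor_iff (hu.trans huv)).1 h2
      rcases Nat.lt_or_ge ⌊u⌋₊ p with h4 | h4
      · left
        refine ⟨⟨h1, ?_⟩, (Nat.floor_lt hu).1 h4, h3, h5, h6⟩
        exact_mod_cast h3.trans hv
      · right
        exact ⟨⟨h1, h4⟩, h5, h6⟩
  · rw [disjoint_left]
    intro p h1 h2
    rw [mem_filter] at h1 h2
    have h3 := (mem_Icc.1 h2.1).2
    have h4 := (Nat.floor_lt hu).2 h1.2.1
    omega

/-- For all `b ≥ 2`, `m ≥ 1` and `ε, ρ, θ > 0` there are `K` and `X₀` with the following property. Let `X ≥ X₀` and let `T`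
be an ARBITRARY finite set of odd integers between `X / m` and `X` (of any size; for instance one integer, with `ρ < 1`).
There is a set `S` of at most `K` exponents, with `d = ∑_{ν ∈ S} b ^ ν ≤ θ X`, such that for all but at most
`ρ |T|` of the elements `N` of `T` the number `n = N + d` is odd and has the following property: for ALL real `u, v` with
`0 ≤ u ≤ v ≤ n / 2` the number of the primes `q` in `(u, v]` for which `n - 2 q` is a prime differs from
`S(n) (v - u) / log ^ 2 n`, `S(n)` the singular series, by at most `ε S(n) n / log ^ 2 n`. -/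
theorem result (b m : ℕ) (hb : 2 ≤ b) (hm : 1 ≤ m) (ε ρ θ : ℝ) (hε : 0 < ε) (hρ : 0 < ρ) (hθ : 0 < θ) :
    ∃ K X₀ : ℕ, ∀ X : ℕ, X₀ ≤ X → ∀ T : Finset ℕ, (∀ n ∈ T, Odd n ∧ n ≤ X ∧ X ≤ m * n) →
      ∃ S : Finset ℕ, S.card ≤ K ∧ ∑ ν ∈ S, (b : ℝ) ^ ν ≤ θ * X ∧
        ∃ E ⊆ T, (E.card : ℝ) ≤ ρ * T.card ∧ ∀ N ∈ T, N ∉ E → ∀ n : ℕ, n = N + ∑ ν ∈ S, b ^ ν → Odd n ∧
          ∀ u v : ℝ, 0 ≤ u → u ≤ v → 2 * v ≤ n →
            |(inWindow n u v : ℝ) - sing n * ((v - u) / Real.log n ^ 2)| ≤ ε * (sing n * (n / Real.log n ^ 2)) := by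
  obtain ⟨e, hed⟩ : ∃ e, e = min ε 1 / 16 := ⟨_, rfl⟩
  have he : 0 < e := by rw [hed]; have := lt_min hε one_pos; linarith
  have he1 : e ≤ 1 := by rw [hed]; have := min_le_right ε 1; linarith
  have heε : 11 * e ≤ ε := by rw [hed]; have := min_le_left ε 1; have := lt_min hε one_pos; linarith
  obtain ⟨M, hM1, n0, hn0⟩ := all_N e he he1
  obtain ⟨K, X₀, hmain⟩ := Pool.Agent.Y820.LF.con1u b hb 1 le_rfl 2 1 (2 * m * M) (by norm_num) (Nat.mul_pos (by omega) (by omega)) e ρ (min θ 1 / 2)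
    he hρ (by have := lt_min hθ one_pos; linarith) (by have := min_le_right θ 1; linarith)
  obtain ⟨n1, hn1⟩ : ∃ n1 : ℕ, 1 / e ≤ n1 := ⟨_, Nat.le_ceil _⟩
  refine ⟨K, X₀ + m * (n0 + n1 + 4), fun X hX T hT => ?_⟩
  have hmn : m * (n0 + n1 + 4) ≤ X := by omega
  have hX1 : 1 ≤ X := le_trans (by nlinarith) hmn
  have hX0 : (0 : ℝ) < X := by exact_mod_cast (by omega : 0 < X)
  obtain ⟨S, hS1, hS2, E, hET, hEc, hE⟩ := hmain (2 * X) (by omega) (fun _ => 1) (fun _ => Or.inl rfl) ℕ T (fun _ _ => -2)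
    (fun n _ => (n : ℤ)) (fun _ _ _ => ⟨by norm_num, by norm_num⟩) (fun n hn _ => by
      have h1 := (hT n hn).2.1
      rw [abs_of_nonneg (by positivity)]
      push_cast
      have : (n : ℤ) ≤ X := by exact_mod_cast h1
      linarith)
  have hsz : ∑ ν ∈ S 0, (b : ℝ) ^ ν ≤ min θ 1 * X := by
    refine (hS2 0).trans (le_of_eq ?_)
    push_cast
    ring
  refine ⟨S 0, hS1 0, hsz.trans (mul_le_mul_of_nonneg_right (min_le_left _ _) hX0.le), E, hET, hEc, fun n hn hnE a ha => ?_⟩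
  obtain ⟨h2n, hnX, hXn⟩ := hT n hn
  obtain ⟨hadm, G, hG0, hG1, hG2⟩ := hE n hn hnE (fun _ => (a : ℤ)) (fun i => by
    have : i = 0 := Subsingleton.elim _ _
    rw [this, ha]
    push_cast
    ring) ((adm_iff n).2 (by have := Nat.odd_iff.1 h2n; omega))
  have h2a : ¬ 2 ∣ a := (adm_iff a).1 hadm
  have hnb : n0 + n1 + 4 ≤ n := by
    by_contra hcon
    push Not at hcon
    have : m * n < m * (n0 + n1 + 4) := Nat.mul_lt_mul_of_pos_left hcon hm
    omega
  have hna : n ≤ a := by rw [ha]; exact Nat.le_add_right _ _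
  have haX : a ≤ 2 * X := by
    have h1 : ((∑ ν ∈ S 0, b ^ ν : ℕ) : ℝ) ≤ X := by
      push_cast
      refine hsz.trans ?_
      have := mul_le_mul_of_nonneg_right (min_le_right θ 1) hX0.le
      rwa [one_mul] at this
    have h2 : ∑ ν ∈ S 0, b ^ ν ≤ X := by exact_mod_cast h1
    omega
  have hG : G = sing a := tendsto_nhds_unique hG1 (sing_lim a (by omega) h2a)
  have hall := hn0 a (by omega) (W a) G hG0 (W_mono a) (fun N hN1 hN2 => by
    have h1 := hG2 N (by omega) (by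
      have e1 : m * n ≤ m * a := Nat.mul_le_mul_left _ hna
      have e2 : m * a ≤ m * (M * N) := Nat.mul_le_mul_left _ hN1
      have e3 : 2 * m * M * N = 2 * (m * (M * N)) := by ring
      omega) (by
      have hN0 : 0 < N := by
        rcases Nat.eq_zero_or_pos N with h | h
        · rw [h] at hN1
          omega
        · exact h
      intro i
      refine Fin.cases ?_ (fun i => ?_) i
      · rw [Pool.Agent.Y820.LF.C1_zero, Pool.Agent.Y820.LF.H1_zero]
        constructor <;> omega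
      · rw [Pool.Agent.Y820.LF.C1_succ, Pool.Agent.Y820.LF.H1_succ]
        constructor <;> omega)
    rw [W_eq] at h1
    exact h1)
  refine ⟨Nat.odd_iff.2 (by omega), fun u v hu huv hv => ?_⟩
  rw [← hG]
  have hv0 : 0 ≤ v := hu.trans huv
  have hfl : ∀ t : ℝ, 0 ≤ t → 2 * t ≤ a → 2 * ⌊t⌋₊ + 1 ≤ a := fun t ht hta => by
    have h1 : (⌊t⌋₊ : ℝ) ≤ t := Nat.floor_le ht
    have h2 : ((2 * ⌊t⌋₊ : ℕ) : ℝ) ≤ a := by
      push_cast
      linarith
    have h3 : 2 * ⌊t⌋₊ ≤ a := by exact_mod_cast h2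
    omega
  have h1 := inWindow_eq a u v hu huv (by linarith)
  have h2 : (inWindow a u v : ℝ) = (W a ⌊v⌋₊ : ℝ) - W a ⌊u⌋₊ := by
    have : (inWindow a u v : ℝ) + W a ⌊u⌋₊ = W a ⌊v⌋₊ := by exact_mod_cast h1
    linarith
  have h3 := hall ⌊v⌋₊ (hfl v hv0 hv)
  have h4 := hall ⌊u⌋₊ (hfl u hu (by linarith))
  have hal : (4 : ℝ) ≤ a := by exact_mod_cast (by omega : 4 ≤ a)
  have hL0 : 0 < Real.log a := Real.log_pos (by linarith)
  have hea : 1 ≤ e * a := by
    have h5 : (n1 : ℝ) ≤ a := by exact_mod_cast (by omega : n1 ≤ a)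
    have h6 : 1 / e ≤ (a : ℝ) := hn1.trans h5
    rw [div_le_iff₀ he] at h6
    linarith
  obtain ⟨c, hc⟩ : ∃ c, c = G / Real.log a ^ 2 := ⟨_, rfl⟩
  have hc0 : 0 < c := by rw [hc]; positivity
  have ec : ∀ t : ℝ, G * (t / Real.log a ^ 2) = c * t := fun t => by
    rw [hc]
    ring
  rw [ec, ec] at h3 h4
  rw [ec, ec, h2]
  have f1 : (⌊v⌋₊ : ℝ) ≤ v := Nat.floor_le hv0
  have f2 : v < ⌊v⌋₊ + 1 := Nat.lt_floor_add_one _
  have f3 : (⌊u⌋₊ : ℝ) ≤ u := Nat.floor_le hu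
  have f4 : u < ⌊u⌋₊ + 1 := Nat.lt_floor_add_one _
  have h5 : |(v - u) - ((⌊v⌋₊ : ℝ) - ⌊u⌋₊)| ≤ 1 := by
    rw [abs_le]
    constructor <;> linarith
  have h6 : c * 1 ≤ e * (c * a) := by nlinarith
  have h7 : |c * ((v - u) - ((⌊v⌋₊ : ℝ) - ⌊u⌋₊))| ≤ c * 1 := by
    rw [abs_mul, abs_of_pos hc0]
    exact mul_le_mul_of_nonneg_left h5 hc0.le
  have h8 : 11 * e * (c * a) ≤ ε * (c * a) := mul_le_mul_of_nonneg_right heε (by positivity)
  rw [abs_le] at h3 h4 h7 ⊢
  constructor <;> nlinarith [h3.1, h3.2, h4.1, h4.2, h7.1, h7.2]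

end Pool.Agent.Results.MP_662920_nt.WindowsAfterPowers
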